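import Pool.Agent.Lib.MP_73b196_co.Str.Main

/-!
# Binary hierarchical models with Markov bases of degree at most 4: the excluded minors

`Δ` is a simplicial complex on `Fin n`: a set of subsets which contains the empty set and is closed
under subsets. Elements of `Fin n` which are no vertices of `Δ` are allowed, so the case in which
all `{v}` are faces is contained. `MarkovDegreeLE Δ 4` says that the binary hierarchical model of `Δ`
has a Markov basis all of whose moves have degree at most `4` (definitions in
`Pool/Agent/Lib/MP_73b196_co/Defs.lean`). `HasMinor Δ k L` says that the complex with the vertex set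
`Fin k` and the facets in the list `L` arises from `Δ` by deleting vertices and contracting edges: there
are disjoint sets `A i` of vertices, `i < k`, each of them connected in the 1-skeleton, such that a face
of `Δ` meets all `A i`, `i ∈ I`, if and only if `I` is contained in a member of `L` (definitions in
`Pool/Agent/Lib/MP_73b196_co/Str/Defs.lean`).

`result`: the model of `Δ` has a Markov basis of moves of degree at most `4` if and only if `Δ` has none
of the following minors:
* `Bd k`: the boundary of the simplex with `k` vertices, for all `k ≥ 4`,
* `K0`: the complete graph with four vertices,
* `K1`: the complete graph with four vertices and one filled triangle,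
* `T5`: the complex with the facets `0123, 014, 234`,
* `M5`: the Moebius strip with the facets `012, 013, 024, 134, 234`,
* `X6`: the complex with the facets `024, 134, 025, 035, 135`.

Outline of the proof. Necessity (`Str/Nec.lean`): a minor of a complex of Markov degree at most `4` has
Markov degree at most `4`, and each complex in the list has two tables with the same marginals which are
not joined by moves of degree at most `4`.

Sufficiency. Let `Δ` have none of the minors. Structure theorem (`St/`, Theorems S2, H, S3): `Δ` has a
cone vertex, or a face which separates it, or an edge `xy` which is a facet, or a pair of nonadjacent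
vertices which separates it, or a hollow triangle which separates it; for a facet `xy` the complex without
`xy` has a cone vertex, or one vertex separates `x` from `y`, or it consists of two crossed cones over a
pair of vertices. In each case the fibres of `Δ` are connected by moves of degree at most `4` because the
fibres of smaller complexes of the class are (`Fib/`); for the facet `xy` one needs the stronger property
(P): the complex without `xy` is connected by moves of degree two and by moves of degree at most four which
keep the `xy`-marginal.
-/

set_option autoImplicit false

namespace Pool.Agent.Results.MP_73b196_co.ForbiddenMinors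

open Pool.Agent.Lib.MP_73b196_co

/-- The complexes of Markov degree at most four are the complexes without the excluded minors. -/
theorem result (n : ℕ) (Δ : Set (Finset (Fin n))) (h0 : ∅ ∈ Δ) (hd : ∀ F ∈ Δ, ∀ G, G ⊆ F → G ∈ Δ) :
    MarkovDegreeLE Δ 4 ↔
      (∀ k, 4 ≤ k → ¬ Str.HasMinor Δ k (Str.Bd k)) ∧ ¬ Str.HasMinor Δ 4 Str.K0 ∧
        ¬ Str.HasMinor Δ 4 Str.K1 ∧ ¬ Str.HasMinor Δ 5 Str.T5 ∧ ¬ Str.HasMinor Δ 5 Str.M5 ∧
        ¬ Str.HasMinor Δ 6 Str.X6 := by
  rw [Str.final n Δ ⟨h0, hd⟩]
  exact ⟨fun h => ⟨h.bd, h.k0, h.k1, h.t5, h.m5, h.x6⟩,
    fun h => ⟨h.1, h.2.1, h.2.2.1, h.2.2.2.1, h.2.2.2.2.1, h.2.2.2.2.2⟩⟩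

end Pool.Agent.Results.MP_73b196_co.ForbiddenMinors
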